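import Mathlib

set_option autoImplicit false

namespace Pool.Agent.Results.MP_2fa0cb_nt.RankTwo

open Classical in
/-- A rational function viewed as a self-map of the Riemann sphere. -/
noncomputable def act (h : RatFunc ℂ) (x : OnePoint ℂ) : OnePoint ℂ :=
  OnePoint.elim x
    (if h.denom.natDegree < h.num.natDegree then OnePoint.infty
      else ((h.num.coeff h.denom.natDegree / h.denom.leadingCoeff : ℂ) : OnePoint ℂ))
    (fun z => if h.denom.eval z = 0 then OnePoint.infty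
      else ((h.num.eval z / h.denom.eval z : ℂ) : OnePoint ℂ))

/-- The degree of a rational function as a self-map of the sphere. -/
noncomputable def deg (h : RatFunc ℂ) : ℕ := max h.num.natDegree h.denom.natDegree

/-- The rank-two recurrence set. -/
def S2 (f g c : RatFunc ℂ) : Set (ℕ × ℕ) :=
  {p | ∃ x : OnePoint ℂ, act c x = (act f)^[p.1] x ∧ (act f)^[p.1] x = (act g)^[p.2] x}

lemma lin_period (s : Set (ℕ × ℕ)) (hs : IsLinearSet s) :
    ∃ D : ℕ, 0 < D ∧ ∀ m : ℕ, ∃ N : ℕ, ∀ n, N ≤ n → (m, n) ∈ s → ∀ k : ℕ, (m, n + k * D) ∈ s := by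
  rw [isLinearSet_iff] at hs
  obtain ⟨a, t, rfl⟩ := hs
  by_cases hv : ∃ p ∈ t, p.1 = 0 ∧ 0 < p.2
  · obtain ⟨p, hp, h1, h2⟩ := hv
    refine ⟨p.2, h2, fun m => ⟨0, fun n _ hn k => ?_⟩⟩
    obtain ⟨y, hy, hy2⟩ := hn
    refine ⟨y + k • p, AddSubmonoid.add_mem _ hy
      (AddSubmonoid.nsmul_mem _ (AddSubmonoid.subset_closure hp) k), ?_⟩
    simp only [vadd_eq_add] at hy2 ⊢
    rw [← add_assoc, hy2]
    ext
    · simp [h1]
    · simp
  · push Not at hv
    obtain ⟨K, hK⟩ : ∃ K : ℕ, ∀ p ∈ t, p.2 ≤ K := ⟨t.sup (fun p => p.2), fun p hp =>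
      Finset.le_sup (f := fun p : ℕ × ℕ => p.2) hp⟩
    have key : ∀ y ∈ AddSubmonoid.closure (t : Set (ℕ × ℕ)), y.2 ≤ K * y.1 := by
      intro y hy
      induction hy using AddSubmonoid.closure_induction with
      | mem x hx =>
        by_cases h0 : x.1 = 0
        · have := hv x hx h0
          omega
        · have := hK x hx
          have : K * 1 ≤ K * x.1 := Nat.mul_le_mul_left _ (by omega)
          omega
      | zero => simp
      | add x y _ _ hx hy =>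
        simp only [Prod.snd_add, Prod.fst_add, mul_add]
        omega
    refine ⟨1, one_pos, fun m => ⟨a.2 + K * m + 1, fun n hn hmem k => ?_⟩⟩
    exfalso
    obtain ⟨y, hy, hy2⟩ := hmem
    simp only [vadd_eq_add] at hy2
    have h1 := congrArg Prod.fst hy2
    have h2 := congrArg Prod.snd hy2
    simp only [Prod.fst_add, Prod.snd_add] at h1 h2
    have h3 := key y hy
    have : K * y.1 ≤ K * m := Nat.mul_le_mul_left _ (by omega)
    omega

lemma semi_period (s : Set (ℕ × ℕ)) (hs : IsSemilinearSet s) :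
    ∃ D : ℕ, 0 < D ∧ ∀ m : ℕ, ∃ N : ℕ, ∀ n, N ≤ n → (m, n) ∈ s → ∀ k : ℕ, (m, n + k * D) ∈ s := by
  classical
  rw [isSemilinearSet_iff] at hs
  obtain ⟨S, hS, rfl⟩ := hs
  induction S using Finset.induction_on with
  | empty => exact ⟨1, one_pos, fun m => ⟨0, fun n _ h => by simp at h⟩⟩
  | insert u S _ ih =>
    obtain ⟨D1, hD1, h1⟩ := lin_period u (hS u (Finset.mem_insert_self _ _))
    obtain ⟨D2, hD2, h2⟩ := ih (fun t ht => hS t (Finset.mem_insert_of_mem ht))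
    refine ⟨D1 * D2, Nat.mul_pos hD1 hD2, fun m => ?_⟩
    obtain ⟨N1, h1⟩ := h1 m
    obtain ⟨N2, h2⟩ := h2 m
    refine ⟨N1 + N2, fun n hn hmem k => ?_⟩
    rw [Finset.coe_insert, Set.sUnion_insert] at hmem ⊢
    rcases hmem with h | h
    · left
      have := h1 n (by omega) h (k * D2)
      rwa [show k * D2 * D1 = k * (D1 * D2) by ring] at this
    · right
      have := h2 n (by omega) h (k * D1)
      rwa [show k * D1 * D2 = k * (D1 * D2) by ring] at this

noncomputable def ff : RatFunc ℂ := algebraMap (Polynomial ℂ) (RatFunc ℂ) (Polynomial.X ^ 2)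

noncomputable def cc (w : ℂ) : RatFunc ℂ :=
  algebraMap (Polynomial ℂ) (RatFunc ℂ) (Polynomial.C w) /
    algebraMap (Polynomial ℂ) (RatFunc ℂ) Polynomial.X

lemma ff_num : ff.num = Polynomial.X ^ 2 := RatFunc.num_algebraMap _
lemma ff_denom : ff.denom = 1 := RatFunc.denom_algebraMap _

lemma gcd_cx (w : ℂ) (hw : w ≠ 0) : gcd (Polynomial.C w) (Polynomial.X : Polynomial ℂ) = 1 := by
  rw [← normalize_gcd, normalize_eq_one]
  exact isUnit_of_dvd_unit (gcd_dvd_left _ _) (Polynomial.isUnit_C.2 (IsUnit.mk0 w hw))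

lemma cc_num (w : ℂ) (hw : w ≠ 0) : (cc w).num = Polynomial.C w := by
  unfold cc
  rw [RatFunc.num_div, gcd_cx w hw]
  simp

lemma cc_denom (w : ℂ) (hw : w ≠ 0) : (cc w).denom = Polynomial.X := by
  unfold cc
  rw [RatFunc.denom_div _ Polynomial.X_ne_zero, gcd_cx w hw]
  simp

lemma act_ff_coe (z : ℂ) : act ff (z : OnePoint ℂ) = ((z ^ 2 : ℂ) : OnePoint ℂ) := by
  simp [act, ff_num, ff_denom]

lemma act_ff_inf : act ff OnePoint.infty = OnePoint.infty := by
  simp [act, ff_num, ff_denom]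

lemma iter_coe (m : ℕ) (z : ℂ) :
    (act ff)^[m] (z : OnePoint ℂ) = ((z ^ (2 ^ m) : ℂ) : OnePoint ℂ) := by
  induction m with
  | zero => simp
  | succ m ih =>
    rw [Function.iterate_succ_apply', ih, act_ff_coe, ← pow_mul, pow_succ]

lemma iter_inf (m : ℕ) : (act ff)^[m] OnePoint.infty = OnePoint.infty :=
  Function.iterate_fixed act_ff_inf m

lemma mem_S2 (w : ℂ) (hw : w ≠ 0) (m n : ℕ) :
    (m, n) ∈ S2 ff ff (cc w) ↔ ∃ z : ℂ, z ^ (2 ^ m + 1) = w ∧ z ^ (2 ^ n + 1) = w := by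
  constructor
  · rintro ⟨x, h1, h2⟩
    induction x using OnePoint.rec with
    | infty =>
      simp [iter_inf, act, cc_num w hw, cc_denom w hw] at h1
    | coe z =>
      simp only [iter_coe] at h1 h2
      by_cases hz : z = 0
      · simp [act, cc_num w hw, cc_denom w hw, hz] at h1
      · simp only [act, cc_num w hw, cc_denom w hw, OnePoint.elim_some, Polynomial.eval_X, hz,
          if_false, Polynomial.eval_C, OnePoint.coe_eq_coe] at h1 h2
        have h3 : z ^ (2 ^ m + 1) = w := by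
          rw [pow_succ, ← h1]; field_simp
        refine ⟨z, h3, ?_⟩
        rw [pow_succ, ← h2, ← pow_succ, h3]
  · rintro ⟨z, h1, h2⟩
    have hz : z ≠ 0 := by
      rintro rfl
      apply hw
      rw [← h1]; simp
    refine ⟨(z : OnePoint ℂ), ?_, ?_⟩
    · simp only [iter_coe, act, cc_num w hw, cc_denom w hw, OnePoint.elim_some, Polynomial.eval_X,
        hz, if_false, Polynomial.eval_C, OnePoint.coe_eq_coe]
      rw [← h1, pow_succ]; field_simp
    · simp only [iter_coe, OnePoint.coe_eq_coe]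
      apply mul_right_cancel₀ hz
      rw [← pow_succ, ← pow_succ, h1, h2]

lemma quot_mod (u : ℕ) (hu : u % 3 = 2) (r : ℕ) :
    ∃ Q : ℕ, u ^ (6 * r + 1) + 1 = (u + 1) * (3 * Q + 1) := by
  induction r with
  | zero => exact ⟨0, by simp⟩
  | succ r ih =>
    obtain ⟨Q, hQ⟩ := ih
    obtain ⟨a, rfl⟩ : ∃ a, u = 3 * a + 2 := ⟨u / 3, by omega⟩
    have e : (3 * a + 2) ^ (6 * (r + 1) + 1) = (3 * a + 2) ^ (6 * r + 1) * (3 * a + 2) ^ 6 := by
      rw [← pow_add]; congr 1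
    obtain ⟨y, hy⟩ : ∃ y, y = (3 * a + 2) ^ (6 * r + 1) := ⟨_, rfl⟩
    rw [e, ← hy]
    rw [← hy] at hQ
    refine ⟨Q + y * ((3 * a + 1) * (9 * a ^ 2 + 15 * a + 7) * (3 * a ^ 2 + 3 * a + 1)), ?_⟩
    zify at hQ ⊢
    linear_combination hQ

theorem result : ¬ ∀ f g c : RatFunc ℂ, 1 ≤ deg f → 1 ≤ deg g → (2 ≤ deg f ∨ 2 ≤ deg g) →
    IsSemilinearSet (S2 f g c) := by
  intro H
  have hprim := Complex.isPrimitiveRoot_exp 3 (by norm_num)
  obtain ⟨w, hw⟩ : ∃ w : ℂ, IsPrimitiveRoot w 3 := ⟨_, hprim⟩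
  have hw0 : w ≠ 0 := hw.ne_zero (by norm_num)
  have hd : deg ff = 2 := by simp [deg, ff_num, ff_denom]
  obtain ⟨D, hD, hper⟩ := semi_period _ (H ff ff (cc w) (by omega) (by omega) (by omega))
  have : Fact (Nat.Prime 3) := ⟨by norm_num⟩
  obtain ⟨v, hv⟩ : ∃ v, v = padicValNat 3 D := ⟨_, rfl⟩
  obtain ⟨m, hm⟩ : ∃ m, m = 3 ^ (v + 1) := ⟨_, rfl⟩
  obtain ⟨N, hN⟩ := hper m
  have hm1 : 1 ≤ m := by rw [hm]; exact Nat.one_le_pow _ _ (by norm_num)
  have hmodd : Odd m := by rw [hm]; exact Odd.pow (by decide)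
  have hu : (2 ^ m) % 3 = 2 := by
    obtain ⟨j, rfl⟩ := hmodd
    rw [pow_succ, pow_mul, Nat.mul_mod, Nat.pow_mod]
    simp
  obtain ⟨Q, hQ⟩ := quot_mod (2 ^ m) hu N
  have hin : (m, m * (6 * N + 1)) ∈ S2 ff ff (cc w) := by
    rw [mem_S2 w hw0]
    obtain ⟨z, hz⟩ := IsAlgClosed.exists_pow_nat_eq w (n := 2 ^ m + 1) (by positivity)
    refine ⟨z, hz, ?_⟩
    rw [pow_mul, hQ, pow_mul, hz, pow_succ, pow_mul, hw.pow_eq_one]
    simp
  have hout := hN _ (by nlinarith) hin 2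
  rw [mem_S2 w hw0] at hout
  obtain ⟨z, h1, h2⟩ := hout
  obtain ⟨n, hn⟩ : ∃ n, n = m * (6 * N + 1) + 2 * D := ⟨_, rfl⟩
  rw [← hn] at h2
  have hnodd : Odd n := by
    rw [hn]
    exact (hmodd.mul (by exact ⟨3 * N, by ring⟩)).add_even ⟨D, by ring⟩
  have hA : padicValNat 3 (2 ^ m + 1) = v + 2 := by
    have := padicValNat.pow_add_pow (p := 3) (x := 2) (y := 1) (by decide) (by norm_num)
      (by norm_num) hmodd
    rw [one_pow] at this
    rw [this, hm, padicValNat.prime_pow]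
    norm_num; omega
  have hnv : ¬ 3 ^ (v + 1) ∣ n := by
    intro h
    rw [hn, hm] at h
    have h3 : 3 ^ (v + 1) ∣ 2 * D := (Nat.dvd_add_right (Dvd.intro _ rfl)).1 h
    have h4 : 3 ^ (v + 1) ∣ D := by
      refine Nat.Coprime.dvd_of_dvd_mul_left ?_ h3
      exact Nat.Coprime.pow_left _ (by norm_num)
    rw [hv] at h4
    exact pow_succ_padicValNat_not_dvd hD.ne' h4
  have hB : padicValNat 3 (2 ^ n + 1) ≤ v + 1 := by
    have := padicValNat.pow_add_pow (p := 3) (x := 2) (y := 1) (by decide) (by norm_num)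
      (by norm_num) hnodd
    rw [one_pow] at this
    rw [this]
    have h5 : padicValNat 3 n ≤ v := by
      by_contra hc
      exact hnv ((pow_dvd_pow 3 (by omega)).trans pow_padicValNat_dvd)
    norm_num; omega
  obtain ⟨b, hb⟩ : ∃ b, b = padicValNat 3 (2 ^ n + 1) := ⟨_, rfl⟩
  obtain ⟨B, hB2⟩ : 3 ^ b ∣ 2 ^ n + 1 := by rw [hb]; exact pow_padicValNat_dvd
  have hB3 : ¬ 3 ∣ B := by
    rintro ⟨B', rfl⟩
    apply pow_succ_padicValNat_not_dvd (p := 3) (n := 2 ^ n + 1) (by positivity)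
    rw [← hb]
    exact ⟨B', by rw [hB2]; ring⟩
  obtain ⟨A, hA2⟩ : 3 ^ (b + 1) ∣ 2 ^ m + 1 :=
    (pow_dvd_pow 3 (by omega)).trans pow_padicValNat_dvd
  have e : (2 ^ m + 1) * B = (2 ^ n + 1) * (3 * A) := by rw [hA2, hB2]; ring
  have h6 : w ^ B = 1 := by
    rw [← h1, ← pow_mul, e, pow_mul, h2, pow_mul, hw.pow_eq_one, one_pow]
  exact hB3 ((hw.pow_eq_one_iff_dvd B).1 h6)

end Pool.Agent.Results.MP_2fa0cb_nt.RankTwo
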